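import Pool.Agent.H23.QCF.Targets

set_option autoImplicit false

open NumberField IsDedekindDomain Pool.Agent.H23.QCF Polynomial
open Pool.Agent.H32.QC (Sol hil Iso FPl Pl ic hs sqAt HasseConic ProdFormula Prescribed)

namespace Pool.Agent.H50.QCF

theorem pf_EXT : T_EXT := by
  intro K _ _ t ht
  have hdeg : (X ^ 2 - C t : K[X]).natDegree = 2 := by compute_degree!
  have hmon : (X ^ 2 - C t : K[X]).Monic := monic_X_pow_sub_C t two_ne_zero
  have hirr : Irreducible (X ^ 2 - C t : K[X]) := by
    rw [hmon.irreducible_iff_roots_eq_zero_of_degree_le_three (by rw [hdeg])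
      (by rw [hdeg]; norm_num)]
    rw [Multiset.eq_zero_iff_forall_notMem]
    intro a ha
    rw [mem_roots hmon.ne_zero] at ha
    apply ht
    refine ⟨a, ?_⟩
    have h1 : a ^ 2 - t = 0 := by simpa [IsRoot] using ha
    linear_combination -h1
  have hf : Fact (Irreducible (X ^ 2 - C t : K[X])) := ⟨hirr⟩
  let E := AdjoinRoot (X ^ 2 - C t : K[X])
  letI i1 : Field E := AdjoinRoot.instField
  letI i2 : Algebra K E := AdjoinRoot.instAlgebra _
  have hfin : Module.finrank K E = 2 := by
    have h1 := (AdjoinRoot.powerBasis (f := (X ^ 2 - C t : K[X])) hmon.ne_zero).finrank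
    rw [AdjoinRoot.powerBasis_dim, hdeg] at h1
    exact h1
  have hfd : FiniteDimensional K E := Module.finite_of_finrank_pos (by rw [hfin]; norm_num)
  have hch : CharZero E := charZero_of_injective_algebraMap (algebraMap K E).injective
  have hQ : FiniteDimensional ℚ E := Module.Finite.trans K E
  letI i3 : NumberField E := ⟨⟩
  refine ⟨E, i1, i3, i2, AdjoinRoot.root (X ^ 2 - C t : K[X]), ⟨ht, ?_, hfin⟩⟩
  have h2 := AdjoinRoot.eval₂_root (X ^ 2 - C t : K[X])
  rw [eval₂_sub, eval₂_pow, eval₂_X, eval₂_C] at h2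
  exact sub_eq_zero.1 h2

end Pool.Agent.H50.QCF
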