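import Pool.Agent.H23.QCF.Targets
import Pool.Agent.H32.QC.TargetsL

set_option autoImplicit false

open NumberField IsDedekindDomain Pool.Agent.H23.QCF
open Pool.Agent.H32.QC (Sol hil Iso FPl Pl ic hs sqAt HasseConic ProdFormula Prescribed)

namespace Pool.Agent.H50.QCF

theorem sol_symm {L : Type*} [Field L] {a b : L} (h : Sol a b) : Sol b a := by
  obtain ⟨x, y, z, h0, h1⟩ := h
  refine ⟨y, x, z, ?_, by rw [h1]; ring⟩
  rcases h0 with h0 | h0 | h0
  · exact Or.inr (Or.inl h0)
  · exact Or.inl h0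
  · exact Or.inr (Or.inr h0)

theorem hil_symm {L : Type*} [Field L] (a b : L) : hil a b = hil b a := by
  unfold hil
  by_cases h : Sol a b
  · rw [if_pos h, if_pos (sol_symm h)]
  · rw [if_neg h, if_neg (fun h' => h (sol_symm h'))]

theorem hil_sq {L : Type*} [Field L] (a t : L) (h : IsSquare t) : hil a t = 1 := by
  obtain ⟨c, hc⟩ := h
  unfold hil
  rw [if_pos]
  exact ⟨0, 1, c, Or.inr (Or.inl one_ne_zero), by rw [hc]; ring⟩

theorem pf_HSYM : T_HSYM := by
  intro K _ _ p a b
  cases p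
  · exact hil_symm _ _
  · exact hil_symm _ _

theorem pf_HSQ : T_HSQ := by
  intro K _ _ p a t h
  cases p
  · exact hil_sq _ _ h
  · exact hil_sq _ _ h

theorem pf_HMUL (h : Pool.Agent.H32.QC.T_PBM) (_h2 : Pool.Agent.H32.QC.T_PSG) : T_HMUL := by
  intro K _ _ p a b t ha hb ht
  rw [pf_HSYM K p (a * b) t, pf_HSYM K p a t, pf_HSYM K p b t]
  exact h K p t a b ht ha hb

theorem pf_HND (h : Pool.Agent.H32.QC.T_PND) : T_HND := by
  intro K _ _ p t ht hs
  obtain ⟨z, hz, h1, _⟩ := h K p t t ht ht hs hs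
  exact ⟨z, hz, by rw [pf_HSYM K p z t]; exact h1⟩

theorem pf_NSQ : T_NSQ := by
  intro K _ _ p
  cases p with
  | inl v =>
    obtain ⟨π, hπ⟩ := v.valuation_exists_uniformizer K
    have h0 : π ≠ 0 := by
      rintro rfl
      rw [map_zero] at hπ
      exact absurd hπ.symm WithZero.exp_ne_zero
    refine ⟨π, h0, ?_⟩
    rintro ⟨c, hc⟩
    have h1 : Valued.v (ic v π) = v.valuation K π := v.valuedAdicCompletion_eq_valuation' π
    rw [hc, map_mul, hπ] at h1
    have hc0 : Valued.v c ≠ 0 := by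
      intro h
      rw [h, zero_mul] at h1
      exact absurd h1.symm WithZero.exp_ne_zero
    have h2 := congrArg WithZero.log h1
    rw [WithZero.log_mul hc0 hc0, WithZero.log_exp] at h2
    omega
  | inr φ =>
    refine ⟨-1, by norm_num, ?_⟩
    rintro ⟨c, hc⟩
    rw [map_neg, map_one] at hc
    nlinarith [mul_self_nonneg c]

end Pool.Agent.H50.QCF
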